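import Pool.Agent.H76.AB.Stm

set_option autoImplicit false

namespace Pool.Agent.H63.AB

open H76.AB

theorem t_FREE (hWORD : S_WORD) : S_FREE := by
  classical
  intro E F g hF
  let ι : Type := {L : List (E × Bool) // L ≠ [] ∧ L.length ≤ g ∧ (∀ z ∈ L, z.1 ∈ F) ∧
    L.IsChain (fun x y => ¬ (x.1 = y.1 ∧ x.2 ≠ y.2))}
  have hfin : Finite ι := by
    haveI : Finite F := hF
    have h1 : Set.Finite {l : List (F × Bool) | l.length < g + 1} := List.finite_length_lt _ _
    have h2 := h1.image (List.map (Prod.map Subtype.val id : F × Bool → E × Bool))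
    have h3 : Set.Finite {L : List (E × Bool) | L ≠ [] ∧ L.length ≤ g ∧ (∀ z ∈ L, z.1 ∈ F) ∧
        L.IsChain (fun x y => ¬ (x.1 = y.1 ∧ x.2 ≠ y.2))} := by
      refine h2.subset ?_
      rintro L ⟨_, hlen, hmem, _⟩
      refine ⟨L.attach.map (fun z => (⟨z.1.1, hmem z.1 z.2⟩, z.1.2)), ?_, ?_⟩
      · simp
        omega
      · rw [List.map_map]
        conv_rhs => rw [← List.attach_map_subtype_val L]
        rfl
    exact h3
  have hW : ∀ L : ι, ∃ (n : ℕ) (a : E → Equiv.Perm (Fin n)),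
      (L.1.map (fun z => if z.2 then a z.1 else (a z.1)⁻¹)).prod ≠ 1 :=
    fun L => hWORD E L.1 L.2.1 L.2.2.2.2
  choose n a ha using hW
  refine ⟨∀ L : ι, Equiv.Perm (Fin (n L)), inferInstance, inferInstance, fun e L => a L e, ?_⟩
  intro L h1 h2 h3 h4 hprod
  apply ha ⟨L, h1, h2, h3, h4⟩
  have h5 := congrArg (Pi.evalMonoidHom (fun L : ι => Equiv.Perm (Fin (n L)))
    ⟨L, h1, h2, h3, h4⟩) hprod
  rw [map_list_prod, List.map_map, map_one] at h5
  rw [← h5]
  congr 1
  refine List.map_congr_left fun z _ => ?_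
  simp only [Function.comp_apply]
  split_ifs <;> rfl

end Pool.Agent.H63.AB
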