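import Pool.Agent.H76.AB.Stm

set_option autoImplicit false

namespace Pool.Agent.H63.AB

open H76.AB

theorem prod_walk {G P : Type} [Group G] [MulAction G P] {A : Type} (l : A → G) :
    ∀ (L : List A) (p : ℕ → P), (∀ i (h : i < L.length), l L[i] • p (i + 1) = p i) →
      (L.map l).prod • p L.length = p 0 := by
  intro L
  induction L with
  | nil => intro p _; simp
  | cons x L ih =>
    intro p hp
    have h1 := ih (fun i => p (i + 1)) (fun i h => by
      have := hp (i + 1) (by simpa using h)
      simpa using this)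
    have h2 := hp 0 (by simp)
    simp only [List.map_cons, List.prod_cons, List.length_cons, mul_smul]
    rw [h1]
    simpa using h2

theorem t_WORD : S_WORD := by
  classical
  intro E L hne hch
  have hn : 0 < L.length := List.length_pos_of_ne_nil hne
  have hred : ∀ i (h : i + 1 < L.length), ¬ ((L[i]).1 = (L[i + 1]).1 ∧ (L[i]).2 ≠ (L[i + 1]).2) := by
    intro i h
    exact (List.isChain_iff_getElem.mp hch) i h
  set n := L.length with hnL
  -- the partial map
  let f : E → Fin (n + 1) → Fin (n + 1) := fun e x =>
    if 1 ≤ x.1 ∧ L[x.1 - 1]? = some (e, true) then ⟨x.1 - 1, by omega⟩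
    else ⟨min (x.1 + 1) n, by omega⟩
  let s : E → Finset (Fin (n + 1)) := fun e => Finset.univ.filter fun x =>
    (1 ≤ x.1 ∧ L[x.1 - 1]? = some (e, true)) ∨ L[x.1]? = some (e, false)
  have hinj : ∀ e, Set.InjOn (f e) (s e) := by
    intro e x hx y hy hxy
    simp only [s, Finset.coe_filter, Finset.mem_univ, true_and, Set.mem_ofPred_eq] at hx hy
    have key : ∀ x y : Fin (n + 1), (1 ≤ x.1 ∧ L[x.1 - 1]? = some (e, true)) →
        ¬ (1 ≤ y.1 ∧ L[y.1 - 1]? = some (e, true)) → L[y.1]? = some (e, false) →
        f e x ≠ f e y := by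
      intro x y h1 h2 h3 h4
      simp only [f, h1, h2, and_self, if_true, if_false, Fin.mk.injEq] at h4
      have h5 : y.1 < n := (List.getElem?_eq_some_iff.mp h3).1
      have h6 : x.1 - 1 = y.1 + 1 := by omega
      have h7 : y.1 + 1 < L.length := by
        rw [← h6]; exact (List.getElem?_eq_some_iff.mp h1.2).1
      have h8 := hred y.1 h7
      obtain ⟨_, h9⟩ := List.getElem?_eq_some_iff.mp h3
      rw [h6] at h1
      obtain ⟨_, h10⟩ := List.getElem?_eq_some_iff.mp h1.2
      rw [h9, h10] at h8
      exact h8 ⟨rfl, by simp⟩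
    by_cases hx1 : 1 ≤ x.1 ∧ L[x.1 - 1]? = some (e, true)
    · by_cases hy1 : 1 ≤ y.1 ∧ L[y.1 - 1]? = some (e, true)
      · simp only [f, hx1, hy1, and_self, if_true, Fin.mk.injEq] at hxy
        have := hx1.1
        have := hy1.1
        exact Fin.ext (by omega)
      · exact absurd hxy (key x y hx1 hy1 (hy.resolve_left hy1))
    · by_cases hy1 : 1 ≤ y.1 ∧ L[y.1 - 1]? = some (e, true)
      · exact absurd hxy.symm (key y x hy1 hx1 (hx.resolve_left hx1))
      · have h1 := (List.getElem?_eq_some_iff.mp (hx.resolve_left hx1)).1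
        have h2 := (List.getElem?_eq_some_iff.mp (hy.resolve_left hy1)).1
        simp only [f, hx1, hy1, if_false, Fin.mk.injEq] at hxy
        exact Fin.ext (by omega)
  have hex : ∀ e, ∃ g : Equiv.Perm (Fin (n + 1)), ∀ x ∈ s e, g x = f e x := by
    intro e
    obtain ⟨g, hg⟩ := Finset.exists_equiv_extend_of_card_eq (α := Fin (n + 1))
      (t := (Finset.univ : Finset (Fin (n + 1)))) (by simp) (s := s e) (f := f e)
      (Finset.subset_univ _) (hinj e)
    exact ⟨g.trans (Equiv.subtypeUnivEquiv (by simp)), fun x hx => hg x hx⟩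
  choose a ha using hex
  refine ⟨n + 1, a, ?_⟩
  intro hprod
  let p : ℕ → Fin (n + 1) := fun i => ⟨min i n, by omega⟩
  have hp := prod_walk (fun z : E × Bool => if z.2 then a z.1 else (a z.1)⁻¹) L p (by
    intro i hi
    have hi' : i < n := hi
    rcases hz : L[i] with ⟨e, b⟩
    have hz' : L[i]? = some (e, b) := by
      rw [List.getElem?_eq_getElem hi, hz]
    cases b with
    | true =>
      simp only [if_true, Equiv.Perm.smul_def]
      have h1 : 1 ≤ (p (i + 1)).1 ∧ L[(p (i + 1)).1 - 1]? = some (e, true) := by
        have : (p (i + 1)).1 = i + 1 := by simp only [p]; omega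
        rw [this]
        exact ⟨by omega, by simpa using hz'⟩
      rw [ha e (p (i + 1)) (by simp only [s, Finset.mem_filter, Finset.mem_univ, true_and]; exact Or.inl h1)]
      simp only [f, h1, and_self, if_true]
      apply Fin.ext
      simp only [p]
      omega
    | false =>
      simp only [Bool.false_eq_true, if_false, Equiv.Perm.smul_def]
      rw [Equiv.Perm.inv_eq_iff_eq]
      have hpi : (p i).1 = i := by simp only [p]; omega
      have h1 : ¬ (1 ≤ (p i).1 ∧ L[(p i).1 - 1]? = some (e, true)) := by
        rw [hpi]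
        rintro ⟨h2, h3⟩
        obtain ⟨h4, h5⟩ := List.getElem?_eq_some_iff.mp h3
        have h6 := hred (i - 1) (by omega)
        have h7 : i - 1 + 1 = i := by omega
        simp only [h7] at h6
        rw [h5, hz] at h6
        exact h6 ⟨rfl, by simp⟩
      rw [ha e (p i) (by
        simp only [s, Finset.mem_filter, Finset.mem_univ, true_and]
        right; rw [hpi]; exact hz')]
      simp only [f, h1, if_false]
      apply Fin.ext
      simp only [p]
      omega)
  rw [hprod, one_smul] at hp
  have := congrArg Fin.val hp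
  simp only [p] at this
  omega

end Pool.Agent.H63.AB
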